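import Pool.Agent.Helper2.FR.Defs
import Pool.Agent.Helper2.AV.Fin
import Pool.Agent.Helper38.FR.FC1

/-!
From the group level to the abstract level: the data of a place.
-/

set_option linter.unusedVariables false
set_option linter.unusedSectionVars false

open Module MTPairs

namespace FR

open MTP UN AV

section
variable {K : Type*} [Field K] [CharZero K] [IsAlgClosed K] {V : Type*} [AddCommGroup V]
  [Module K V] [FiniteDimensional K V]


private lemma eig_Rw45 {W : Submodule K V} {h : Module.End K V} (hh : ∀ w ∈ W, h w ∈ W)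
    (a : K) (w : W) : w ∈ (Rw W h).eigenspace a ↔ (w : V) ∈ h.eigenspace a := by
  rw [Module.End.mem_eigenspace_iff, Module.End.mem_eigenspace_iff, ← Rw_coe hh w]
  constructor
  · intro h1
    rw [h1]
    rfl
  · intro h1
    exact Subtype.ext h1

private lemma ml_Rw45 {W : Submodule K V} {N h : Module.End K V} (hN : ∀ w ∈ W, N w ∈ W)
    (hh : ∀ w ∈ W, h w ∈ W) (a : K) : TR.ml (Rw W N) (Rw W h) a =
      finrank K ↥(W ⊓ LinearMap.ker N ⊓ h.eigenspace a) -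
        finrank K ↥(W.map N ⊓ h.eigenspace a) := by
  have h1 : (LinearMap.ker (Rw W N) ⊓ (Rw W h).eigenspace a).map W.subtype =
      W ⊓ LinearMap.ker N ⊓ h.eigenspace a := by
    ext v
    constructor
    · rintro ⟨w, ⟨hw1, hw2⟩, rfl⟩
      refine ⟨⟨w.2, ?_⟩, (eig_Rw45 hh a w).1 hw2⟩
      rw [SetLike.mem_coe, LinearMap.mem_ker] at hw1 ⊢
      have h2 := Rw_coe hN w
      rw [hw1] at h2
      exact h2.symm
    · rintro ⟨⟨hv1, hv2⟩, hv3⟩
      refine ⟨⟨v, hv1⟩, ⟨?_, (eig_Rw45 hh a ⟨v, hv1⟩).2 hv3⟩, rfl⟩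
      rw [SetLike.mem_coe, LinearMap.mem_ker] at hv2 ⊢
      apply Subtype.ext
      rw [Rw_coe hN]
      exact hv2
  have h2 : (LinearMap.range (Rw W N) ⊓ (Rw W h).eigenspace a).map W.subtype =
      W.map N ⊓ h.eigenspace a := by
    ext v
    constructor
    · rintro ⟨w, ⟨⟨w', hw'⟩, hw2⟩, rfl⟩
      refine ⟨⟨w', w'.2, ?_⟩, (eig_Rw45 hh a w).1 hw2⟩
      rw [← Rw_coe hN w', hw']
      rfl
    · rintro ⟨⟨w, hw, rfl⟩, hv3⟩
      refine ⟨⟨N w, hN w hw⟩, ⟨⟨⟨w, hw⟩, ?_⟩, (eig_Rw45 hh a ⟨N w, hN w hw⟩).2 hv3⟩, rfl⟩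
      apply Subtype.ext
      rw [Rw_coe hN]
  unfold TR.ml
  rw [← h1, ← h2, Submodule.finrank_map_subtype_eq, Submodule.finrank_map_subtype_eq]

variable {m : Type*} [Fintype m] [DecidableEq m] {Γ : Subgroup (Equiv.Perm (m → K))}
  {J : Matrix m m K} {G : Subgroup (Matrix.GeneralLinearGroup m K)} {π : Matrix m m K}

/-- FC2 -/
theorem exists_plc (D : IsStrongMTPair Γ J G π) (hr : IsReductiveRep G) [Nonempty m]
    {u g : Matrix.GeneralLinearGroup m K} (hu : u ∈ G) (hg : g ∈ G) (hp : IsPlace Γ G π u g) :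
    ∃ h : Module.End K (m → K), Plc (GE G) (TE Γ) (Matrix.toLin' π)
      (Matrix.toLin' ((u : Matrix m m K) - 1)) h ∧
      ∀ W, Irr (AA (GE G) (TE Γ) (Matrix.toLin' π) : Set (Module.End K (m → K))) W →
        MTP.rk (Rw W (Matrix.toLin' ((u : Matrix m m K) - 1))) =
          finrank K (W.map ((u : Matrix m m K) - 1).mulVecLin) ∧
        nev (Rw W (Matrix.toLin' ((u : Matrix m m K) - 1))) (Rw W h) =
          {a : K | mlt (u : Matrix m m K) g W a ≠ 0}.ncard := by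
  have U := mstr D hr
  obtain ⟨P, hP, hPN, hNP, hPg⟩ := hp.coch
  obtain ⟨q, hq⟩ := hp.rel
  obtain ⟨a0, ha0⟩ := hp.img
  have hgG := GA.toLin_mem hg
  have hgA := U.g_mem hgG
  have hone : 1 + Matrix.toLin' ((u : Matrix m m K) - 1) = Matrix.toLin' (u : Matrix m m K) := by
    rw [map_sub, Matrix.toLin'_one]
    exact add_sub_cancel _ _
  have huG : 1 + Matrix.toLin' ((u : Matrix m m K) - 1) ∈ GE G := by
    rw [hone]
    exact GA.toLin_mem hu
  have hNA : Matrix.toLin' ((u : Matrix m m K) - 1) ∈ AA (GE G) (TE Γ) (Matrix.toLin' π) := by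
    have h1 := sub_mem (U.g_mem huG) (one_mem (AA (GE G) (TE Γ) (Matrix.toLin' π)))
    rwa [add_sub_cancel_left] at h1
  obtain ⟨h, h1, h2, h3, h4, h5, h6⟩ := exists_log (GA.toLin_inv_mul g)
    (L := ML (GE G) (TE Γ) (Matrix.toLin' π)) (N := Matrix.toLin' ((u : Matrix m m K) - 1))
    (a0 := a0) (q := q) (by
      intro a b ha hb n hn hab
      obtain ⟨v, hv, hv0⟩ := Submodule.exists_mem_ne_zero_of_ne_bot ha
      obtain ⟨w, hw, hw0⟩ := Submodule.exists_mem_ne_zero_of_ne_bot hb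
      rw [Module.End.mem_eigenspace_iff, Matrix.toLin'_apply] at hv hw
      exact hp.root a b v w hv0 hw0 hv hw n hn hab)
    (fun x hx => U.ml_conj hgG (GA.toLin_mem (G.inv_mem hg)) (GA.toLin_mul_inv g)
      (GA.toLin_inv_mul g) hx)
    (by
      rintro _ ⟨v, rfl⟩
      exact ha0 v)
    (by
      rw [← GA.toLin_mul, ← GA.toLin_mul, hq, map_smul])
  have hhA : h ∈ AA (GE G) (TE Γ) (Matrix.toLin' π) := by
    apply U.ssA.mem_of_comm
    intro T hT
    exact (h5 T (hT _ hgA)).symm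
  refine ⟨h, ⟨huG, hhA, ⟨Matrix.toLin' P, GA.sc_of D hP, ?_, ?_, ?_⟩, h3, h4, h2, h1⟩, ?_⟩
  · rw [← GA.toLin_mul, hPN]
  · rw [← GA.toLin_mul, hNP, map_zero]
  · apply h5
    rw [← GA.toLin_mul, ← GA.toLin_mul, hPg]
  · intro W hW
    have hNW : ∀ w ∈ W, Matrix.toLin' ((u : Matrix m m K) - 1) w ∈ W := hW.st _ hNA
    have hhW : ∀ w ∈ W, h w ∈ W := hW.st _ hhA
    refine ⟨rk_Rw hNW, ?_⟩
    have h7 := h6 W (hW.st _ hgA)
    unfold nev
    simp only [ml_Rw45 hNW hhW]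
    rw [← h7]
    rfl
end

end FR
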